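import Mathlib
import Pool.Agent.V11172.RsFinal

/-!
# MP_c755aa_co, Q1: monochromatic progressions in Rudin–Shapiro, differences below `2 ^ k`

For every `k ≥ 5` and every `1 ≤ d ≤ 2 ^ k - 2` one has `A_11(d) ≤ 2 ^ (k - 1)`.
-/

namespace Pool.Agent.Results.MP_c755aa_co.BelowPowers

open Pool.Agent.V11172.Rs

/-- `e_11(n)`: the number of positions `i` such that the binary digits `i` and `i + 1` of `n`
are both one, that is, the number of occurrences of the block `11` in the binary expansion. -/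
def e (n : ℕ) : ℕ := ((Finset.range n).filter fun i => n.testBit i ∧ n.testBit (i + 1)).card

/-- `A_11(n, d) = inf {l ≥ 1 : e_11(n + l d) ≢ e_11(n) (mod 2)}`, a natural number or infinity. -/
noncomputable def AStart (n d : ℕ) : ℕ∞ :=
  ⨅ (l : ℕ) (_ : 1 ≤ l ∧ ¬ e (n + l * d) ≡ e n [MOD 2]), (l : ℕ∞)

/-- `A_11(d)`: the supremum over all starting points. -/
noncomputable def A (d : ℕ) : ℕ∞ := ⨆ n : ℕ, AStart n d

lemma e_iff (a b : ℕ) : e a ≡ e b [MOD 2] ↔ r a = r b := by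
  unfold Nat.ModEq r
  rw [ZMod.natCast_eq_natCast_iff']
  rfl

/-- **Q1 of MP_c755aa_co.** -/
theorem result : ∀ k : ℕ, 5 ≤ k → ∀ d : ℕ, 1 ≤ d → d ≤ 2 ^ k - 2 →
    A d ≤ ((2 ^ (k - 1) : ℕ) : ℕ∞) := by
  intro k hk d hd hdk
  have h4 : 4 ≤ 2 ^ k := by
    calc 4 = 2 ^ 2 := by norm_num
      _ ≤ 2 ^ k := Nat.pow_le_pow_right (by norm_num) (by omega)
  unfold A AStart
  refine iSup_le fun n => ?_
  have h := allB hk hd (by omega) n
  -- some term has another colour
  obtain ⟨l, hl, hne⟩ : ∃ l, l < 2 ^ (k - 1) + 1 ∧ r (n + l * d) ≠ r n := by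
    by_contra hcon
    push Not at hcon
    exact h ⟨r n, fun l hl => hcon l hl⟩
  have hl1 : 1 ≤ l := by
    rcases Nat.eq_zero_or_pos l with h0 | h0
    · subst h0
      simp at hne
    · exact h0
  refine iInf_le_of_le l (iInf_le_of_le ⟨hl1, fun h => hne ((e_iff _ _).1 h)⟩ ?_)
  rw [Nat.cast_le]
  omega

end Pool.Agent.Results.MP_c755aa_co.BelowPowers
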